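import Pool.Agent.Y160.T3.IrrCount

/-!
# Project EN: counting statements over finite fields

`mF a = x ^ m + ∑ a_i x ^ i` (`a : Fin m → F`), `bF w = ∑ w_j x ^ j`; `GoodP R g`: `g` is irreducible and
its constant coefficient is not an `N`-th power for the primes `N` which divide `R`
(`Pool.Agent.Y160.T3.Count`).
-/

set_option autoImplicit false
set_option linter.all false

open Polynomial

namespace Pool.Agent.Y160.EN

open Pool.Agent.Y160.T3 (GoodP mF bF)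

/-- `h = (x - ρ_1) ⋯ (x - ρ_n) u + b ^ q` is good for a positive proportion of `(ρ, u, b)`. -/
def St_irr : Prop := ∀ (n D r q R : ℕ), Odd R → 0 < q → 2 ≤ D → 0 < n → n ≤ r + 1 → q * r < n + D →
  q.Coprime (R * (n + D)) → ∃ K₀ N₀ : ℕ, ∀ (F : Type) [Field F] [Fintype F],
    R ∣ Fintype.card F - 1 → N₀ ≤ Fintype.card F →
    Fintype.card F ^ (n + D + (r + 1)) ≤ K₀ *
      {x : (Fin n → F) × (Fin D → F) × (Fin (r + 1) → F) |
        GoodP R ((∏ i, (X - C (x.1 i))) * mF x.2.1 + bF x.2.2 ^ q)}.ncard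

/-- The number of the good `h` with points `x_1, …, x_n` at which the values are `q`-th powers. -/
def St_irr1 : Prop := ∀ (n m q R : ℕ), Odd R → 0 < q → 2 ≤ m → 0 < n → q.Coprime (R * m) →
  ∃ K₀ N₀ : ℕ, ∀ (F : Type) [Field F] [Fintype F], R ∣ Fintype.card F - 1 → N₀ ≤ Fintype.card F →
    Fintype.card F ^ (m + n) ≤ K₀ *
      {x : (Fin m → F) × (Fin n → F) × (Fin n → F) | GoodP R (mF x.1) ∧
        Function.Injective x.2.1 ∧ ∀ i, x.2.2 i ^ q = (mF x.1).eval (x.2.1 i)}.ncard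

/-- From these to the polynomials `h = (x - ρ_1) ⋯ (x - ρ_n) u + b ^ q`. -/
def St_irr2 : Prop := St_irr1 → St_irr

/-- `u(ρ_i) ∏_{j ≠ i} (ρ_i - ρ_j) ^ (ε_j)` is not a `p`-th power for a positive proportion of
`(ρ, u)`. -/
def St_R : Prop := ∀ (n D p : ℕ), p.Prime → 0 < D → ∃ K₀ N₀ : ℕ, ∀ (F : Type) [Field F] [Fintype F],
    p ∣ Fintype.card F - 1 → N₀ ≤ Fintype.card F → ∀ (i : Fin n) (ε : Fin n → ℕ),
    Fintype.card F ^ (n + D) ≤ K₀ *
      {x : (Fin n → F) × (Fin D → F) | ∀ y : F, y ^ p ≠ (mF x.2).eval (x.1 i) *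
        ∏ j ∈ Finset.univ.erase i, (x.1 i - x.1 j) ^ ε j}.ncard

/-- For a positive proportion of `(ρ, u, b)` the polynomial `h = (x - ρ_1) ⋯ (x - ρ_n) u + b ^ q` has a
simple zero `θ` with `b(θ) ≠ 0` such that `∏ (θ - ρ_i) ^ (ε_i)` is not a `p`-th power. -/
def St_S : Prop := ∀ (n D r p q : ℕ), p.Prime → 0 < q → 2 ≤ D → q * r < n + D → ∃ K₀ N₀ : ℕ,
    ∀ (F : Type) [Field F] [Fintype F],
    p ∣ Fintype.card F - 1 → N₀ ≤ Fintype.card F → ∀ ε : Fin n → ℕ, (∃ i, ¬ p ∣ ε i) →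
    Fintype.card F ^ (n + D + (r + 1)) ≤ K₀ *
      {x : (Fin n → F) × (Fin D → F) × (Fin (r + 1) → F) | ∃ θ : F,
        ((∏ i, (X - C (x.1 i))) * mF x.2.1 + bF x.2.2 ^ q).eval θ = 0 ∧
        (derivative ((∏ i, (X - C (x.1 i))) * mF x.2.1 + bF x.2.2 ^ q)).eval θ ≠ 0 ∧
        (bF x.2.2).eval θ ≠ 0 ∧ ∀ y : F, y ^ p ≠ ∏ i, (θ - x.1 i) ^ ε i}.ncard

end Pool.Agent.Y160.EN
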