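import Pool.Agent.Y160.T4.Cond

/-!
# Project EN: the algebraic statement
-/

set_option autoImplicit false
set_option linter.all false

open Polynomial

namespace Pool.Agent.Y160.EN

open Pool.Agent.Y160.FT

/-- The conditions on `ρ`, `u`, `b` over the field `E`. -/
structure ManyD {E : Type} [Field E] (p q M n : ℕ) (ρ : Fin n → E) (u b : E[X]) : Prop where
  n0 : 0 < n
  um : u.Monic
  ud : 2 ≤ u.natDegree
  cop : p.Coprime (n + u.natDegree)
  deg : q * b.natDegree < n + u.natDegree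
  neg : ∃ y : E, y ^ p = -1
  iρ : ∀ i, Irreducible (expand E M (X - C (ρ i)))
  iu : Irreducible (expand E M u)
  ih : Irreducible (expand E M ((∏ i, (X - C (ρ i))) * u + b ^ q))
  tR : ∀ (i : Fin n) (ε : Fin n → ℕ) (y : E), y ^ p ≠ u.eval (ρ i) *
    ∏ j ∈ Finset.univ.erase i, (ρ i - ρ j) ^ ε j
  tS : ∀ ε : Fin n → ℕ, (∃ w : E[X], expand E M ((∏ i, (X - C (ρ i))) * u + b ^ q) ∣
    ∏ i, expand E M (X - C (ρ i)) ^ ε i - w ^ p) → ∀ i, p ∣ ε i

/-- The conditions of the descent. -/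
def St_cond : Prop := ∀ (E : Type) [Field E] [PerfectField E] (p q s M n l : ℕ) (ρ : Fin n → E)
  (u b : E[X]) (c : E), p.Prime → q = p ^ (s + 1) → p.Coprime M → c ≠ 0 →
  ManyD p q M n ρ u b →
  Cond2 p q (expand E M ((∏ i, (X - C (ρ i))) * u))
    ((expand E M b, c) :: (List.replicate l (1 : E)).map fun a' => ((0 : E[X]), a'))

end Pool.Agent.Y160.EN
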